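import Mathlib

namespace Pool.Agent.Results.MP_550572_gt.TenStrands

/-- A braid projection on `m + 1` strands is read from top to bottom as the list of its crossings;
the entry `k` is a crossing of the two strands in positions `k` and `k + 1`.
`pos B t i` is the position of strand `i` after the first `t` crossings. -/
def pos {m : ℕ} (B : List (Fin m)) : ℕ → Fin (m + 1) → Fin (m + 1)
  | 0 => fun i => i
  | t + 1 => fun i => match B[t]? with
    | some k => Equiv.swap k.castSucc k.succ (pos B t i)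
    | none => pos B t i

/-- crossing number `t` (counted from `0`) is a crossing of strands `i` and `j` -/
def Crosses {m : ℕ} (B : List (Fin m)) (i j : Fin (m + 1)) (t : ℕ) : Prop :=
  ∃ k, B[t]? = some k ∧ ((pos B t i = k.castSucc ∧ pos B t j = k.succ) ∨
    (pos B t j = k.castSucc ∧ pos B t i = k.succ))

/-- the CN matrix: number of crossings of strand `i` with strand `j` -/
noncomputable def CN {m : ℕ} (B : List (Fin m)) (i j : Fin (m + 1)) : ℕ :=
  {t | t < B.length ∧ Crosses B i j t}.ncard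

/-- condition T0, with the zero diagonal -/
def T0 {n : ℕ} (M : Matrix (Fin n) (Fin n) ℕ) : Prop :=
  (∀ i, M i i = 0) ∧ ∀ i j k, i < j → j < k → M i j = 0 → M j k = 0 → M i k = 0

def rel (i j : Fin 10) : Bool :=
  (i, j) ∈ [(0, 7), (1, 6), (1, 8), (2, 5), (2, 6), (2, 9), (3, 7), (3, 8), (4, 5), (4, 7)]

def M₀ : Matrix (Fin 10) (Fin 10) ℕ :=
  Matrix.of fun i j => if i = j ∨ rel i j ∨ rel j i then 0 else 2

variable {m : ℕ} {B : List (Fin m)}

theorem pos_inj (t : ℕ) : Function.Injective (pos B t) := by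
  induction t with
  | zero => exact fun _ _ h => h
  | succ t ih =>
    intro i j h
    simp only [pos] at h
    cases hB : B[t]? with
    | none => rw [hB] at h; exact ih h
    | some k => rw [hB] at h; exact ih ((Equiv.swap _ _).injective h)

theorem swap_lt (k : Fin m) (a b : Fin (m + 1))
    (h : ¬ ((a = k.castSucc ∧ b = k.succ) ∨ (b = k.castSucc ∧ a = k.succ))) :
    Equiv.swap k.castSucc k.succ a < Equiv.swap k.castSucc k.succ b ↔ a < b := by
  simp only [Equiv.swap_apply_def, Fin.ext_iff, Fin.val_castSucc, Fin.val_succ] at h ⊢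
  split_ifs <;> simp only [Fin.lt_def, Fin.val_castSucc, Fin.val_succ] <;> omega

theorem step {i j : Fin (m + 1)} {t : ℕ} (h : ¬ Crosses B i j t) :
    pos B (t + 1) j < pos B (t + 1) i ↔ pos B t j < pos B t i := by
  simp only [pos]
  cases hB : B[t]? with
  | none => rfl
  | some k =>
    refine swap_lt k _ _ fun hc => h ⟨k, hB, ?_⟩
    tauto

theorem lt_length {i j : Fin (m + 1)} {t : ℕ} (h : Crosses B i j t) : t < B.length := by
  obtain ⟨k, hk, -⟩ := h
  exact (List.getElem?_eq_some_iff.1 hk).1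

theorem change {i j : Fin (m + 1)} {s t : ℕ} (hst : s ≤ t)
    (h : ¬ (pos B t j < pos B t i ↔ pos B s j < pos B s i)) :
    ∃ u, s ≤ u ∧ u < t ∧ Crosses B i j u := by
  induction t, hst using Nat.le_induction with
  | base => exact absurd Iff.rfl h
  | succ t hst ih =>
    by_cases hc : Crosses B i j t
    · exact ⟨t, hst, Nat.lt_succ_self t, hc⟩
    · rw [step hc] at h
      obtain ⟨u, h1, h2, h3⟩ := ih h
      exact ⟨u, h1, by omega, h3⟩

theorem fin_set (i j : Fin (m + 1)) : {t | t < B.length ∧ Crosses B i j t}.Finite :=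
  (Set.finite_lt_nat B.length).subset fun _ h => h.1

theorem never {i j : Fin (m + 1)} (hij : i < j) (h : CN B i j = 0) (t : ℕ) :
    pos B t i < pos B t j := by
  by_contra hc
  have hne : pos B t i ≠ pos B t j := fun e => hij.ne (pos_inj t e)
  obtain ⟨u, -, -, hu⟩ := change (B := B) (i := i) (j := j) (Nat.zero_le t) (by
    simp only [pos]
    intro e
    exact absurd (e.1 (lt_of_le_of_ne (not_lt.1 hc) hne.symm)) (not_lt.2 hij.le))
  rw [CN, Set.ncard_eq_zero (fin_set i j)] at h
  exact (Set.eq_empty_iff_forall_notMem.1 h u) ⟨lt_length hu, hu⟩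

theorem sometime {i j : Fin (m + 1)} (h : CN B i j = 2) : ∃ t, pos B t j < pos B t i := by
  obtain ⟨u, -, k, hk, hu⟩ := Set.nonempty_of_ncard_ne_zero (s := {t | t < B.length ∧ Crosses B i j t})
    (by rw [CN] at h; omega)
  rcases hu with ⟨h1, h2⟩ | ⟨h1, h2⟩
  · refine ⟨u + 1, ?_⟩
    simp only [pos, hk, h1, h2, Equiv.swap_apply_left, Equiv.swap_apply_right]
    exact k.castSucc_lt_succ
  · exact ⟨u, by rw [h1, h2]; exact k.castSucc_lt_succ⟩

theorem three {i j : Fin (m + 1)} (hij : i < j) (h : CN B i j = 2) {s t u : ℕ}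
    (hs : pos B s j < pos B s i) (ht : pos B t i < pos B t j) (hu : pos B u j < pos B u i)
    (h1 : s < t) (h2 : t < u) : False := by
  obtain ⟨a, -, ha, ha'⟩ := change (B := B) (i := i) (j := j) (Nat.zero_le s) (by
    simp only [pos]
    intro e
    exact absurd (e.1 hs) (not_lt.2 hij.le))
  obtain ⟨b, hb0, hb, hb'⟩ := change (B := B) (i := i) (j := j) h1.le (by
    intro e
    exact absurd (e.2 hs) (not_lt.2 ht.le))
  obtain ⟨c, hc0, hc, hc'⟩ := change (B := B) (i := i) (j := j) h2.le (by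
    intro e
    exact absurd (e.1 hu) (not_lt.2 ht.le))
  have hsub : ({a, b, c} : Set ℕ) ⊆ {t | t < B.length ∧ Crosses B i j t} := by
    rintro x (rfl | rfl | rfl)
    exacts [⟨lt_length ha', ha'⟩, ⟨lt_length hb', hb'⟩, ⟨lt_length hc', hc'⟩]
  have := Set.ncard_le_ncard hsub (fin_set i j)
  rw [Set.ncard_eq_three.2 ⟨a, b, c, by omega, by omega, by omega, rfl⟩] at this
  rw [CN] at h
  omega

theorem between {i j : Fin (m + 1)} (hij : i < j) (h : CN B i j = 2) {s t u : ℕ}
    (hs : pos B s j < pos B s i) (hu : pos B u j < pos B u i) (ht : pos B t i < pos B t j) :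
    (t < s ∧ t < u) ∨ (s < t ∧ u < t) := by
  have n1 : s ≠ t := fun e => by rw [e] at hs; exact absurd hs (not_lt.2 ht.le)
  have n2 : u ≠ t := fun e => by rw [e] at hu; exact absurd hu (not_lt.2 ht.le)
  have a1 := fun h1 h2 => three hij h hs ht hu h1 h2
  have a2 := fun h1 h2 => three hij h hu ht hs h1 h2
  by_contra hc
  rcases lt_or_gt_of_ne n1 with p | p <;> rcases lt_or_gt_of_ne n2 with q | q
  · exact hc (Or.inr ⟨p, q⟩)
  · exact a1 p q
  · exact a2 q p
  · exact hc (Or.inl ⟨p, q⟩)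

theorem result : ∃ M : Matrix (Fin 10) (Fin 10) ℕ,
    M.IsSymm ∧ (∀ i j, Even (M i j)) ∧ T0 M ∧
      ∀ B : List (Fin 9), ¬ ∀ i j, i ≠ j → CN B i j = M i j := by
  refine ⟨M₀, ?_, by decide, by unfold T0; decide, ?_⟩
  · ext i j; revert i j; decide
  intro B h
  have z : ∀ i j : Fin 10, rel i j → ∀ t, pos B t i < pos B t j := fun i j hij =>
    never (by revert i j; decide) (by
      rw [h i j (by revert i j; decide)]; simp [M₀, hij])
  obtain ⟨t01, h01⟩ := sometime (B := B) (i := 0) (j := 6) (by rw [h _ _ (by decide)]; rfl)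
  obtain ⟨t03, h03⟩ := sometime (B := B) (i := 0) (j := 8) (by rw [h _ _ (by decide)]; rfl)
  obtain ⟨t04, h04⟩ := sometime (B := B) (i := 0) (j := 9) (by rw [h _ _ (by decide)]; rfl)
  obtain ⟨t10, h10⟩ := sometime (B := B) (i := 1) (j := 5) (by rw [h _ _ (by decide)]; rfl)
  obtain ⟨t12, h12⟩ := sometime (B := B) (i := 1) (j := 7) (by rw [h _ _ (by decide)]; rfl)
  obtain ⟨t14, h14⟩ := sometime (B := B) (i := 1) (j := 9) (by rw [h _ _ (by decide)]; rfl)
  obtain ⟨t22, h22⟩ := sometime (B := B) (i := 2) (j := 7) (by rw [h _ _ (by decide)]; rfl)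
  obtain ⟨t23, h23⟩ := sometime (B := B) (i := 2) (j := 8) (by rw [h _ _ (by decide)]; rfl)
  obtain ⟨t34, h34⟩ := sometime (B := B) (i := 3) (j := 9) (by rw [h _ _ (by decide)]; rfl)
  obtain ⟨t43, h43⟩ := sometime (B := B) (i := 4) (j := 8) (by rw [h _ _ (by decide)]; rfl)
  have c0 := between (B := B) (i := 1) (j := 4) (by decide) (by rw [h _ _ (by decide)]; rfl)
    ((z 4 5 rfl _).trans h10) ((z 4 7 rfl _).trans h12) ((z 1 8 rfl _).trans h43)
  have c1 := between (B := B) (i := 1) (j := 2) (by decide) (by rw [h _ _ (by decide)]; rfl)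
    ((z 2 5 rfl _).trans h10) ((z 2 9 rfl _).trans h14) ((z 1 8 rfl _).trans h23)
  have c2 := between (B := B) (i := 6) (j := 7) (by decide) (by rw [h _ _ (by decide)]; rfl)
    (h12.trans (z 1 6 rfl _)) (h22.trans (z 2 6 rfl _)) (h01.trans (z 0 7 rfl _))
  have c3 := between (B := B) (i := 5) (j := 8) (by decide) (by rw [h _ _ (by decide)]; rfl)
    (h23.trans (z 2 5 rfl _)) (h43.trans (z 4 5 rfl _)) (h10.trans (z 1 8 rfl _))
  have c4 := between (B := B) (i := 8) (j := 9) (by decide) (by rw [h _ _ (by decide)]; rfl)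
    (h14.trans (z 1 8 rfl _)) (h34.trans (z 3 8 rfl _)) (h23.trans (z 2 9 rfl _))
  have c5 := between (B := B) (i := 2) (j := 3) (by decide) (by rw [h _ _ (by decide)]; rfl)
    ((z 3 7 rfl _).trans h22) ((z 3 8 rfl _).trans h23) ((z 2 9 rfl _).trans h34)
  have c6 := between (B := B) (i := 0) (j := 1) (by decide) (by rw [h _ _ (by decide)]; rfl)
    ((z 1 6 rfl _).trans h01) ((z 1 8 rfl _).trans h03) ((z 0 7 rfl _).trans h12)
  have c7 := between (B := B) (i := 7) (j := 8) (by decide) (by rw [h _ _ (by decide)]; rfl)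
    (h03.trans (z 0 7 rfl _)) (h43.trans (z 4 7 rfl _)) (h12.trans (z 1 8 rfl _))
  have c8 := between (B := B) (i := 0) (j := 2) (by decide) (by rw [h _ _ (by decide)]; rfl)
    ((z 2 6 rfl _).trans h01) ((z 2 9 rfl _).trans h04) ((z 0 7 rfl _).trans h22)
  have c9 := between (B := B) (i := 7) (j := 9) (by decide) (by rw [h _ _ (by decide)]; rfl)
    (h04.trans (z 0 7 rfl _)) (h34.trans (z 3 7 rfl _)) (h22.trans (z 2 9 rfl _))
  omega

end Pool.Agent.Results.MP_550572_gt.TenStrands
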